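import Pool.Agent.U26.SG.Stm6
import Pool.Agent.N661.BR.Lim2
import Pool.Agent.N163.BRBASE
import Pool.Agent.N511.BRISO
import Pool.Agent.Y265.RW.U

/-!
# Project SG, package PL2: planar domains have stationary local limits

The first part follows `Pool/Agent/U867/SG/PL.lean` (helper867).
-/

set_option autoImplicit false
open MeasureTheory Filter Topology Complex
open scoped ContDiff ENNReal

namespace Pool.Agent.U123.SG

open Pool.Agent.W745.RW (lap dx dy TF Dp Dm W Sol Sys)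
open Pool.Agent.Y265.RW (sy rr)
open Pool.Agent.N661.BR (MW lin IsCutoff resc W_zero IsStationary)
open Pool.Agent.U26.SG

noncomputable section

/-- the normalised area measure on `Ω` -/
def PP (Ω : Set ℂ) : Measure ℂ := (volume Ω)⁻¹ • volume.restrict Ω

/-- the standing hypotheses -/
structure Hy (Ω : Set ℂ) (lam : ℕ → ℝ) (u : ℕ → ℂ → ℝ) : Prop where
  op : IsOpen Ω
  bd : Bornology.IsBounded Ω
  ne : Ω.Nonempty
  pos : ∀ n, 0 < lam n
  lim : Tendsto lam atTop atTop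
  sol : ∀ n, Sol Ω (1 / √(lam n)) (u n)
  hlim : Tendsto (fun n => 1 / √(lam n)) atTop (𝓝 0)

/-- weights -/
structure Wg (Ω : Set ℂ) (φ : ℂ → ℝ) : Prop where
  tf : TF Ω φ
  mem : ∀ z, φ z ∈ Set.Icc (0 : ℝ) 1

/-- the random functions -/
def X (lam : ℕ → ℝ) (u : ℕ → ℂ → ℝ) (n : ℕ) (a : ℤ) (w z : ℂ) : ℂ :=
  W (1 / √(lam n)) (u n) a (z + ((1 / √(lam n) : ℝ) : ℂ) * w)

variable {Ω : Set ℂ} {lam : ℕ → ℝ} {u : ℕ → ℂ → ℝ}

lemma vol_fin (H : Hy Ω lam u) : volume Ω ≠ ⊤ := H.bd.measure_lt_top.ne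

lemma vol_pos (H : Hy Ω lam u) : volume Ω ≠ 0 := (H.op.measure_pos volume H.ne).ne'

lemma V_pos (H : Hy Ω lam u) : 0 < volume.real Ω := ENNReal.toReal_pos (vol_pos H) (vol_fin H)

lemma prob (H : Hy Ω lam u) : IsProbabilityMeasure (PP Ω) := by
  refine ⟨?_⟩
  unfold PP
  rw [Measure.smul_apply, Measure.restrict_apply_univ, smul_eq_mul]
  exact ENNReal.inv_mul_cancel (vol_pos H) (vol_fin H)

lemma ae_PP {p : ℂ → Prop} (H : Hy Ω lam u) (h : ∀ z ∈ Ω, p z) : ∀ᵐ z ∂(PP Ω), p z := by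
  unfold PP
  refine Measure.ae_smul_measure ?_ _
  exact (ae_restrict_iff' H.op.measurableSet).2 (Eventually.of_forall h)

lemma aem {F : ℂ → ℂ} (h : AEMeasurable F (volume.restrict Ω)) : AEMeasurable F (PP Ω) := by
  unfold PP
  exact h.smul_measure _

lemma intg {E : Type} [NormedAddCommGroup E] (H : Hy Ω lam u) {F : ℂ → E}
    (h : Integrable F (volume.restrict Ω)) : Integrable F (PP Ω) := by
  unfold PP
  exact h.smul_measure (ENNReal.inv_ne_top.2 (vol_pos H))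

lemma int_PP {E : Type} [NormedAddCommGroup E] [NormedSpace ℝ E] (F : ℂ → E) :
    ∫ z, F z ∂(PP Ω) = (1 / volume.real Ω) • ∫ z in Ω, F z := by
  unfold PP
  rw [integral_smul_measure, ENNReal.toReal_inv, one_div]
  rfl

/-- integrals against a weight -/
lemma int_wt {E : Type} [NormedAddCommGroup E] [NormedSpace ℝ E] {F : ℂ → E}
    (h : ∀ z, z ∉ Ω → F z = 0) : ∫ z, F z ∂(PP Ω) = (1 / volume.real Ω) • ∫ z, F z := by
  rw [int_PP, setIntegral_eq_integral_of_forall_compl_eq_zero h]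

lemma Wg.zero {φ : ℂ → ℝ} (hφ : Wg Ω φ) {z : ℂ} (hz : z ∉ Ω) : φ z = 0 := by
  by_contra h
  exact hz (hφ.tf.2.2 (subset_tsupport _ h))

lemma wint (H : Hy Ω lam u) {φ : ℂ → ℝ} (hφ : Wg Ω φ) : Integrable φ (PP Ω) :=
  intg H (hφ.tf.1.continuous.integrable_of_hasCompactSupport hφ.tf.2.1).restrict

/-- weights which exhaust the mass -/
lemma exists_wt (H : Hy Ω lam u) : ∃ φ : ℕ → ℂ → ℝ, (∀ i, Wg Ω (φ i)) ∧
    Tendsto (fun i => ∫ z, φ i z ∂(PP Ω)) atTop (𝓝 1) := by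
  have := prob H
  have hΩ1 : PP Ω Ω = 1 := by
    have h : ∀ᵐ z ∂(PP Ω), z ∈ Ω := ae_PP H fun z hz => hz
    rwa [← prob_compl_eq_zero_iff H.op.measurableSet, ← mem_ae_iff]
  have hex : ∀ i : ℕ, ∃ φ : ℂ → ℝ, Wg Ω φ ∧ 1 - 1 / ((i : ℝ) + 1) ≤ ∫ z, φ z ∂(PP Ω) := by
    intro i
    have hε : (0:ℝ) < 1 / ((i : ℝ) + 1) := by positivity
    obtain ⟨K, hKΩ, hK, hlt⟩ := H.op.measurableSet.exists_isCompact_lt_add
      (μ := PP Ω) (measure_ne_top _ _) (ε := ENNReal.ofReal (1 / ((i : ℝ) + 1)))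
      (by simpa using hε)
    obtain ⟨φ, h1, h2, h3, h4⟩ := Pool.Agent.Y265.RW.cutoff H.op hK hKΩ
    have hw : Wg Ω φ := ⟨h1, fun z => ⟨h2 z, h3 z⟩⟩
    refine ⟨φ, hw, ?_⟩
    have e1 : (1:ℝ) ≤ (PP Ω).real K + 1 / ((i : ℝ) + 1) := by
      rw [hΩ1] at hlt
      have := ENNReal.toReal_mono (by simp) hlt.le
      rwa [ENNReal.toReal_add (measure_ne_top _ _) ENNReal.ofReal_ne_top,
        ENNReal.toReal_ofReal hε.le, ENNReal.toReal_one] at this
    have e2 : (PP Ω).real K ≤ ∫ z, φ z ∂(PP Ω) := by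
      have h5 : (PP Ω).real K = ∫ z in K, (1 : ℝ) ∂(PP Ω) := by simp
      rw [h5, ← integral_indicator hK.measurableSet]
      refine integral_mono ?_ (wint H hw) fun z => ?_
      · exact (integrable_const (1 : ℝ)).indicator hK.measurableSet
      · by_cases hz : z ∈ K
        · simp [hz, h4 z hz]
        · simpa [hz] using h2 z
    linarith
  choose φ hφ hφ1 using hex
  refine ⟨φ, hφ, ?_⟩
  have hle : ∀ i, ∫ z, φ i z ∂(PP Ω) ≤ 1 := by
    intro i
    have h1 : ∫ _ : ℂ, (1 : ℝ) ∂(PP Ω) = 1 := by simp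
    rw [← h1]
    exact integral_mono (wint H (hφ i)) (integrable_const _) fun z => ((hφ i).mem z).2
  have h0 : Tendsto (fun i : ℕ => 1 - 1 / ((i : ℝ) + 1)) atTop (𝓝 1) := by
    have := (tendsto_one_div_add_atTop_nhds_zero_nat (𝕜 := ℝ)).const_sub 1
    rwa [sub_zero] at this
  exact tendsto_of_tendsto_of_tendsto_of_le_of_le h0 tendsto_const_nhds hφ1 hle

lemma smooth (H : Hy Ω lam u) (n : ℕ) (a : ℤ) :
    ContinuousOn (W (1 / √(lam n)) (u n) a) Ω :=
  ((Pool.Agent.W924.RW.WP.main Ω H.op _ _ (H.sol n)).1 a).continuousOn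

lemma X_zero (n : ℕ) (a : ℤ) (z : ℂ) : X lam u n a 0 z = W (1 / √(lam n)) (u n) a z := by
  unfold X
  rw [mul_zero, add_zero]

lemma X_val (n : ℕ) (w z : ℂ) :
    X lam u n 0 w z = (u n (z + ((1 / √(lam n) : ℝ) : ℂ) * w) : ℂ) := rfl

/-- for large `n` the weight is a test function on the set of all `z` with `z + h w` in `Ω` -/
lemma ev_tf (H : Hy Ω lam u) {φ : ℂ → ℝ} (hφ : Wg Ω φ) (w : ℂ) : ∀ᶠ n in atTop,
    TF {z | z + ((1 / √(lam n) : ℝ) : ℂ) * w ∈ Ω} φ := by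
  obtain ⟨δ, hδ, hδ1⟩ : ∃ δ : ℝ, 0 < δ ∧ Metric.thickening δ (tsupport φ) ⊆ Ω :=
    hφ.tf.2.1.isCompact.exists_thickening_subset_open H.op hφ.tf.2.2
  have h1 : Tendsto (fun n => 1 / √(lam n) * ‖w‖) atTop (𝓝 0) := by
    have := H.hlim.mul_const ‖w‖
    rwa [zero_mul] at this
  filter_upwards [h1.eventually (gt_mem_nhds hδ)] with n hn
  refine ⟨hφ.tf.1, hφ.tf.2.1, fun z hz => ?_⟩
  show z + ((1 / √(lam n) : ℝ) : ℂ) * w ∈ Ω
  refine hδ1 (Metric.mem_thickening_iff.2 ⟨z, hz, ?_⟩)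
  rw [dist_eq_norm, add_sub_cancel_left, norm_mul, Complex.norm_real, Real.norm_eq_abs,
    abs_of_nonneg (by positivity)]
  exact hn

lemma open_sh (H : Hy Ω lam u) (n : ℕ) (w : ℂ) :
    IsOpen {z | z + ((1 / √(lam n) : ℝ) : ℂ) * w ∈ Ω} :=
  H.op.preimage (by fun_prop)

lemma X_cont (H : Hy Ω lam u) (n : ℕ) (a : ℤ) (w : ℂ) :
    ContinuousOn (X lam u n a w) {z | z + ((1 / √(lam n) : ℝ) : ℂ) * w ∈ Ω} :=
  (smooth H n a).comp (by fun_prop) fun z hz => hz

/-- the data of the compactness theorem -/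
lemma dat (hEN : S_EN) (hTR : S_TR) (H : Hy Ω lam u) {C : ℝ}
    (hL : Loc2 Ω (fun n => 1 / √(lam n)) u C) {φ : ℕ → ℂ → ℝ} (hφ : ∀ i, Wg Ω (φ i))
    (hlim : Tendsto (fun i => ∫ z, φ i z ∂(PP Ω)) atTop (𝓝 1)) :
    Dt2 (PP Ω) (X lam u) φ (C / volume.real Ω + 1) where
  prob := prob H
  wm i := (hφ i).tf.1.continuous.measurable
  w01 i := (hφ i).mem
  wlim := hlim
  m0 n a := by
    have h1 : X lam u n a 0 = W (1 / √(lam n)) (u n) a := by
      funext z
      exact X_zero n a z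
    rw [h1]
    exact aem ((smooth H n a).aemeasurable H.op.measurableSet)
  mw i w := by
    filter_upwards [ev_tf H (hφ i) w] with n hn
    exact aem (Pool.Agent.Y265.RW.int_mul (open_sh H n w) hn
      (X_cont H n 0 w)).aestronglyMeasurable.aemeasurable.restrict
  sym n := by
    refine ae_PP H fun z hz k => ?_
    dsimp only
    rw [X_zero, X_zero,
      (Pool.Agent.W924.RW.WP.main Ω H.op _ _ (H.sol n)).2.2.2 k z hz, ← mul_assoc,
      ← mul_pow]
    norm_num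
  isoInt0 i a := by
    filter_upwards [ev_tf H (hφ i) 0] with n hn
    exact intg H (Pool.Agent.Y265.RW.int_mulr (open_sh H n 0) hn
      ((X_cont H n a 0).norm.pow 2)).restrict
  isoInt i w := by
    filter_upwards [ev_tf H (hφ i) w] with n hn
    exact intg H (Pool.Agent.Y265.RW.int_mulr (open_sh H n w) hn
      ((X_cont H n 0 w).norm.pow 2)).restrict
  bd i a := by
    have hV := V_pos H
    filter_upwards [hEN Ω _ u C hL (φ i) (hφ i).tf (fun z => ((hφ i).mem z).1) a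
      (volume.real Ω) hV] with n hn
    have e1 : ∫ z, φ i z * ‖X lam u n a 0 z‖ ^ 2 ∂(PP Ω) =
        1 / volume.real Ω * ∫ z, φ i z * ‖W (1 / √(lam n)) (u n) a z‖ ^ 2 := by
      rw [int_wt fun z hz => by rw [(hφ i).zero hz, zero_mul], smul_eq_mul]
      simp only [X_zero]
    have e2 : ∫ z, φ i z * u n z ^ 2 ≤ C := by
      rw [← setIntegral_eq_integral_of_forall_compl_eq_zero (s := Ω)
        (fun z hz => by rw [(hφ i).zero hz, zero_mul])]
      refine le_trans ?_ (hL.bd n)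
      refine integral_mono_of_nonneg (Eventually.of_forall fun z =>
        mul_nonneg ((hφ i).mem z).1 (sq_nonneg _)) (hL.int n) (Eventually.of_forall fun z => ?_)
      exact mul_le_of_le_one_left (sq_nonneg _) ((hφ i).mem z).2
    have e3 := (abs_le.1 hn).2
    rw [e1]
    calc 1 / volume.real Ω * ∫ z, φ i z * ‖W (1 / √(lam n)) (u n) a z‖ ^ 2
        ≤ 1 / volume.real Ω * (C + volume.real Ω) := by
          refine mul_le_mul_of_nonneg_left ?_ (by positivity)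
          linarith
      _ = C / volume.real Ω + 1 := by field_simp
  tay i w ε hε := by
    have hV := V_pos H
    filter_upwards [hTR Ω _ u C hL (φ i) (hφ i).tf (fun z => ((hφ i).mem z).1) w
      (volume.real Ω * ε) (mul_pos hV hε)] with N hN
    filter_upwards [hN] with n hn
    have e1 : ∫ z, φ i z * ‖X lam u n 0 w z - PS N (fun a => X lam u n a 0 z) w‖ ^ 2 ∂(PP Ω) =
        1 / volume.real Ω * ∫ z, φ i z * ‖W (1 / √(lam n)) (u n) 0
          (z + ((1 / √(lam n) : ℝ) : ℂ) * w) -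
            PS N (fun a => W (1 / √(lam n)) (u n) a z) w‖ ^ 2 := by
      rw [int_wt fun z hz => by rw [(hφ i).zero hz, zero_mul], smul_eq_mul]
      simp only [X_zero]
      rfl
    rw [e1]
    calc 1 / volume.real Ω * ∫ z, φ i z * ‖W (1 / √(lam n)) (u n) 0
          (z + ((1 / √(lam n) : ℝ) : ℂ) * w) -
            PS N (fun a => W (1 / √(lam n)) (u n) a z) w‖ ^ 2
        ≤ 1 / volume.real Ω * (volume.real Ω * ε) := mul_le_mul_of_nonneg_left hn (by positivity)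
      _ = ε := by field_simp

/-- for large `n`, on the support of the weight, the cutoff is invisible -/
lemma ev_resc (H : Hy Ω lam u) {χ : ℝ → ℝ} (hχ : IsCutoff χ) {φ : ℂ → ℝ} (hφ : Wg Ω φ) {k : ℕ}
    (w : Fin k → ℂ) : ∀ᶠ n in atTop, ∀ (v : ℂ → ℝ) (z : ℂ), φ z ≠ 0 → ∀ j,
      resc χ Ω (lam n) v z (w j) = v (z + ((1 / √(lam n) : ℝ) : ℂ) * w j) := by
  obtain ⟨d0, hd0, hd⟩ : ∃ d0 : ℝ, 0 < d0 ∧ ∀ z ∈ tsupport φ, d0 ≤ Metric.infDist z (frontier Ω) := by
    rcases (tsupport φ).eq_empty_or_nonempty with h | h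
    · exact ⟨1, one_pos, by rw [h]; simp⟩
    · obtain ⟨x, hx, hx'⟩ := hφ.tf.2.1.isCompact.exists_isMinOn h
        (Metric.continuous_infDist_pt (frontier Ω)).continuousOn
      exact ⟨_, Pool.Agent.N163.BR.dist_pos' H.op H.bd (hφ.tf.2.2 hx), fun z hz => hx' hz⟩
  obtain ⟨δ, hδ, hδ1⟩ := hχ.one
  have hsq : Tendsto (fun n => √(lam n)) atTop atTop := Real.tendsto_sqrt_atTop.comp H.lim
  have hev : ∀ᶠ n in atTop, ∀ j, ‖w j‖ / d0 / δ ≤ √(lam n) := by
    rw [eventually_all]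
    intro j
    exact hsq.eventually_ge_atTop _
  filter_upwards [hev] with n hn v z hz j
  have hs : 0 < √(lam n) := Real.sqrt_pos.2 (H.pos n)
  have hzd := hd z (subset_tsupport _ hz)
  unfold resc
  have h1 : ‖w j‖ / (√(lam n) * Metric.infDist z (frontier Ω)) ≤ δ := by
    have hdz : 0 < Metric.infDist z (frontier Ω) := lt_of_lt_of_le hd0 hzd
    rw [div_le_iff₀ (mul_pos hs hdz)]
    have h2 := hn j
    rw [div_le_iff₀ hδ, div_le_iff₀ hd0] at h2
    calc ‖w j‖ ≤ √(lam n) * δ * d0 := h2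
      _ ≤ √(lam n) * δ * Metric.infDist z (frontier Ω) := by gcongr
      _ = _ := by ring
  rw [hδ1 _ (by have := lt_of_lt_of_le hd0 hzd; positivity) h1, mul_one]
  congr 2
  push_cast
  field_simp

/-- the exponentials -/
def FF (χ : ℝ → ℝ) (Ω : Set ℂ) (lam : ℝ) (v : ℂ → ℝ) {k : ℕ} (w : Fin k → ℂ) (t : Fin k → ℝ)
    (z : ℂ) : ℂ :=
  Complex.exp (I * ((∑ j, t j * resc χ Ω lam v z (w j) : ℝ) : ℂ))

lemma FF_norm (χ : ℝ → ℝ) (Ω : Set ℂ) (lam : ℝ) (v : ℂ → ℝ) {k : ℕ} (w : Fin k → ℂ)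
    (t : Fin k → ℝ) (z : ℂ) : ‖FF χ Ω lam v w t z‖ = 1 := by
  unfold FF
  rw [mul_comm, Complex.norm_exp_ofReal_mul_I]

lemma FF_int (H : Hy Ω lam u) {χ : ℝ → ℝ} (hχ : IsCutoff χ) (n : ℕ) {k : ℕ} (w : Fin k → ℂ)
    (t : Fin k → ℝ) : Integrable (FF χ Ω (lam n) (u n) w t) (PP Ω) := by
  have : IsFiniteMeasure (volume.restrict Ω) :=
    ⟨by rw [Measure.restrict_apply_univ]; exact (vol_fin H).lt_top⟩
  refine intg H (Integrable.of_bound ?_ 1 (Eventually.of_forall fun z => (FF_norm ..).le))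
  unfold FF
  refine (by fun_prop : Continuous fun x : ℝ =>
    Complex.exp (I * (x : ℂ))).comp_aestronglyMeasurable ?_
  refine Finset.aestronglyMeasurable_fun_sum _ fun j _ => ?_
  exact (Pool.Agent.N163.BR.resc_meas H.op H.bd hχ (H.pos n)
    (H.sol n).smooth.continuousOn (w j)).const_mul (t j)

lemma FF_wt (H : Hy Ω lam u) {χ : ℝ → ℝ} (hχ : IsCutoff χ) {φ : ℂ → ℝ} (hφ : Wg Ω φ) (n : ℕ)
    {k : ℕ} (w : Fin k → ℂ) (t : Fin k → ℝ) :
    ‖(∫ z, FF χ Ω (lam n) (u n) w t z ∂(PP Ω)) -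
      ∫ z, (φ z : ℂ) * FF χ Ω (lam n) (u n) w t z ∂(PP Ω)‖ ≤ 1 - ∫ z, φ z ∂(PP Ω) := by
  have := prob H
  have hi := FF_int H hχ n w t
  have hφF : Integrable (fun z => (φ z : ℂ) * FF χ Ω (lam n) (u n) w t z) (PP Ω) := by
    refine Integrable.of_bound (C := 1) ?_ (Eventually.of_forall fun z => ?_)
    · exact (Complex.continuous_ofReal.comp hφ.tf.1.continuous).aestronglyMeasurable.mul hi.1
    · rw [norm_mul, FF_norm, mul_one, Complex.norm_real, Real.norm_of_nonneg (hφ.mem z).1]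
      exact (hφ.mem z).2
  rw [← integral_sub hi hφF]
  refine (norm_integral_le_integral_norm _).trans (le_of_eq ?_)
  have e4 : ∀ z, ‖FF χ Ω (lam n) (u n) w t z - (φ z : ℂ) * FF χ Ω (lam n) (u n) w t z‖ =
      1 - φ z := by
    intro z
    rw [show FF χ Ω (lam n) (u n) w t z - (φ z : ℂ) * FF χ Ω (lam n) (u n) w t z =
      (((1 - φ z : ℝ) : ℂ) * FF χ Ω (lam n) (u n) w t z) by push_cast; ring,
      norm_mul, FF_norm, mul_one, Complex.norm_real,
      Real.norm_of_nonneg (by linarith [(hφ.mem z).2])]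
  simp only [e4]
  rw [integral_sub (integrable_const _) (wint H hφ)]
  simp

/-- the shifts of a weight -/
lemma shift_lim {φ : ℂ → ℝ} (hφ : Wg Ω φ) {h : ℕ → ℝ} (hh : Tendsto h atTop (𝓝 0)) (x : ℂ) :
    Tendsto (fun n => ∫ z, ‖φ (z - (h n : ℂ) * x) - φ z‖) atTop (𝓝 0) := by
  have hK : IsCompact (Metric.cthickening 1 (tsupport φ)) := hφ.tf.2.1.isCompact.cthickening
  have h0 : ∫ _ : ℂ, (0 : ℝ) = 0 := by simp
  rw [← h0]
  have hx : Tendsto (fun n => (h n : ℂ) * x) atTop (𝓝 0) := by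
    have h1 : Tendsto (fun n => ((h n : ℝ) : ℂ)) atTop (𝓝 0) := by
      have := (Complex.continuous_ofReal.tendsto 0).comp hh
      rw [Complex.ofReal_zero] at this
      exact this
    simpa using h1.mul_const x
  refine tendsto_integral_filter_of_dominated_convergence
    ((Metric.cthickening 1 (tsupport φ)).indicator fun _ => (2 : ℝ)) ?_ ?_ ?_ ?_
  · refine Eventually.of_forall fun n => ?_
    have : Continuous fun z => ‖φ (z - (h n : ℂ) * x) - φ z‖ := by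
      have := hφ.tf.1.continuous
      fun_prop
    exact this.aestronglyMeasurable
  · have h1 : ∀ᶠ n in atTop, ‖(h n : ℂ) * x‖ < 1 := by
      have := hx.norm
      rw [norm_zero] at this
      exact this.eventually (gt_mem_nhds one_pos)
    filter_upwards [h1] with n hn
    refine Eventually.of_forall fun z => ?_
    rw [norm_norm]
    by_cases hz : z ∈ Metric.cthickening 1 (tsupport φ)
    · rw [Set.indicator_of_mem hz, Real.norm_eq_abs, abs_le]
      have a1 := hφ.mem z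
      have a2 := hφ.mem (z - (h n : ℂ) * x)
      constructor <;> linarith [a1.1, a1.2, a2.1, a2.2]
    · rw [Set.indicator_of_notMem hz]
      have b1 : φ z = 0 := by
        by_contra hne
        exact hz (Metric.self_subset_cthickening _ (subset_tsupport _ hne))
      have b2 : φ (z - (h n : ℂ) * x) = 0 := by
        by_contra hne
        refine hz (Metric.mem_cthickening_of_dist_le z (z - (h n : ℂ) * x) 1 _
          (subset_tsupport _ hne) ?_)
        rw [dist_eq_norm, sub_sub_cancel]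
        exact hn.le
      rw [b1, b2, sub_zero, norm_zero]
  · refine (integrable_indicator_iff hK.isClosed.measurableSet).2 ?_
    exact integrableOn_const (hs := hK.measure_lt_top.ne)
  · refine Eventually.of_forall fun z => ?_
    have h2 : Tendsto (fun n => φ (z - (h n : ℂ) * x)) atTop (𝓝 (φ z)) := by
      have := (hφ.tf.1.continuous.tendsto (z - 0)).comp (hx.const_sub z)
      rw [sub_zero] at this
      exact this
    have := (h2.sub_const (φ z)).norm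
    simpa using this

/-- the exponentials without cutoff -/
def EE (lam : ℕ → ℝ) (u : ℕ → ℂ → ℝ) (n : ℕ) {k : ℕ} (w : Fin k → ℂ) (t : Fin k → ℝ)
    (z : ℂ) : ℂ :=
  Complex.exp (I * (((∑ j, (t j : ℂ) * X lam u n 0 (w j) z).re : ℝ) : ℂ))

lemma EE_norm (n : ℕ) {k : ℕ} (w : Fin k → ℂ) (t : Fin k → ℝ) (z : ℂ) :
    ‖EE lam u n w t z‖ = 1 := by
  unfold EE
  rw [mul_comm, Complex.norm_exp_ofReal_mul_I]

lemma EE_shift (n : ℕ) {k : ℕ} (w : Fin k → ℂ) (t : Fin k → ℝ) (x z : ℂ) :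
    EE lam u n (fun j => w j + x) t z =
      EE lam u n w t (z + ((1 / √(lam n) : ℝ) : ℂ) * x) := by
  unfold EE
  have : ∀ j, X lam u n 0 (w j + x) z =
      X lam u n 0 (w j) (z + ((1 / √(lam n) : ℝ) : ℂ) * x) := by
    intro j
    rw [X_val, X_val]
    congr 2
    ring
  simp only [this]

lemma EE_int (H : Hy Ω lam u) {φ : ℂ → ℝ} (hφ : Wg Ω φ) {k : ℕ} (w : Fin k → ℂ)
    (t : Fin k → ℝ) : ∀ᶠ n in atTop, Integrable (fun z => (φ z : ℂ) * EE lam u n w t z) := by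
  have h1 : ∀ᶠ n in atTop, ∀ j, TF {z | z + ((1 / √(lam n) : ℝ) : ℂ) * w j ∈ Ω} φ := by
    rw [eventually_all]
    intro j
    exact ev_tf H hφ (w j)
  filter_upwards [h1] with n hn
  set B : Set ℂ := {z | ∀ j, z + ((1 / √(lam n) : ℝ) : ℂ) * w j ∈ Ω} with hBdef
  have hB : IsOpen B := by
    have : B = ⋂ j, {z | z + ((1 / √(lam n) : ℝ) : ℂ) * w j ∈ Ω} := by
      ext z
      simp [hBdef]
    rw [this]
    exact isOpen_iInter_of_finite fun j => open_sh H n (w j)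
  have hT : TF B φ := ⟨hφ.tf.1, hφ.tf.2.1, fun z hz j => (hn j).2.2 hz⟩
  refine Pool.Agent.Y265.RW.int_mul hB hT ?_
  unfold EE
  have hc : ContinuousOn (fun z => ∑ j, (t j : ℂ) * X lam u n 0 (w j) z) B := by
    refine continuousOn_finsetSum _ fun j _ => ?_
    exact continuousOn_const.mul ((X_cont H n 0 (w j)).mono fun z hz => hz j)
  exact (by fun_prop : Continuous fun x : ℂ =>
    Complex.exp (I * ((x.re : ℝ) : ℂ))).comp_continuousOn hc

/-- asymptotic invariance -/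
lemma EE_inv (H : Hy Ω lam u) {φ : ℂ → ℝ} (hφ : Wg Ω φ) {k : ℕ} (w : Fin k → ℂ)
    (t : Fin k → ℝ) (x : ℂ) {ε : ℝ} (hε : 0 < ε) : ∀ᶠ n in atTop,
      ‖(∫ z, (φ z : ℂ) * EE lam u n (fun j => w j + x) t z ∂(PP Ω)) -
        ∫ z, (φ z : ℂ) * EE lam u n w t z ∂(PP Ω)‖ ≤ ε := by
  have hV := V_pos H
  have h1 := (shift_lim hφ H.hlim x).eventually (gt_mem_nhds (mul_pos hV hε))
  filter_upwards [h1, EE_int H hφ w t, EE_int H hφ (fun j => w j + x) t] with n h2 h3 h4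
  have e1 : ∀ w' : Fin k → ℂ, ∫ z, (φ z : ℂ) * EE lam u n w' t z ∂(PP Ω) =
      (1 / volume.real Ω) • ∫ z, (φ z : ℂ) * EE lam u n w' t z := by
    intro w'
    exact int_wt fun z hz => by rw [hφ.zero hz, Complex.ofReal_zero, zero_mul]
  set c : ℂ := ((1 / √(lam n) : ℝ) : ℂ) * x with hc
  have e2 : ∫ z, (φ z : ℂ) * EE lam u n (fun j => w j + x) t z =
      ∫ z, (φ (z - c) : ℂ) * EE lam u n w t z := by
    rw [← integral_sub_right_eq_self (fun z => (φ z : ℂ) * EE lam u n (fun j => w j + x) t z) c]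
    refine integral_congr_ae (Eventually.of_forall fun z => ?_)
    dsimp only
    rw [EE_shift, ← hc, sub_add_cancel]
  have h5 : Integrable (fun z => (φ (z - c) : ℂ) * EE lam u n w t z) := by
    have := h4.comp_sub_right c
    refine this.congr (Eventually.of_forall fun z => ?_)
    dsimp only
    rw [EE_shift, ← hc, sub_add_cancel]
  rw [e1, e1, ← smul_sub, e2, ← integral_sub h5 h3, norm_smul]
  have h6 : ‖∫ z, ((φ (z - c) : ℂ) * EE lam u n w t z - (φ z : ℂ) * EE lam u n w t z)‖ ≤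
      ∫ z, ‖φ (z - c) - φ z‖ := by
    refine (norm_integral_le_integral_norm _).trans (le_of_eq ?_)
    refine integral_congr_ae (Eventually.of_forall fun z => ?_)
    dsimp only
    rw [← sub_mul, norm_mul, EE_norm, mul_one, ← Complex.ofReal_sub, Complex.norm_real]
  have h7 : ‖(1 / volume.real Ω : ℝ)‖ = 1 / volume.real Ω := Real.norm_of_nonneg (by positivity)
  rw [h7]
  calc 1 / volume.real Ω *
        ‖∫ z, ((φ (z - c) : ℂ) * EE lam u n w t z - (φ z : ℂ) * EE lam u n w t z)‖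
      ≤ 1 / volume.real Ω * (volume.real Ω * ε) :=
        mul_le_mul_of_nonneg_left (h6.trans h2.le) (by positivity)
    _ = ε := by field_simp

theorem t_PL2 : S_COMP2 → S_EN → S_TR → S_STL → S_PL2 := by
  intro hC2 hEN hTR hSTL Ω hΩ hb hne lam hpos hlam u hu heq C hint hbd χ hχ
  have hsol : ∀ n, Sol Ω (1 / √(lam n)) (u n) := by
    intro n
    refine ⟨div_pos one_pos (Real.sqrt_pos.2 (hpos n)), hu n, fun z hz => ?_⟩
    have h1 := heq n z hz
    have h2 : (1 / √(lam n)) ^ 2 = 1 / lam n := by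
      rw [div_pow, Real.sq_sqrt (hpos n).le, one_pow]
    rw [h2]
    have h3 := (hpos n).ne'
    field_simp
    linarith
  have hhl : Tendsto (fun n => 1 / √(lam n)) atTop (𝓝 0) := by
    have : Tendsto (fun n => √(lam n)) atTop atTop := Real.tendsto_sqrt_atTop.comp hlam
    exact (this.inv_tendsto_atTop).congr (fun n => by simp [one_div])
  have H : Hy Ω lam u := ⟨hΩ, hb, hne, hpos, hlam, hsol, hhl⟩
  have hL : Loc2 Ω (fun n => 1 / √(lam n)) u C := ⟨hΩ, hsol, hhl, hint, hbd⟩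
  have hC0 : 0 ≤ C := (integral_nonneg fun z => sq_nonneg (u 0 z)).trans (hbd 0)
  obtain ⟨φ, hφ, hφl⟩ := exists_wt H
  obtain ⟨σ, μ, hσ, hμ, hi2, hc⟩ := hC2 ℂ _ (PP Ω) (X lam u) φ (C / volume.real Ω + 1)
    (by have := V_pos H; positivity) (dat hEN hTR H hL hφ hφl)
  refine ⟨σ, μ, hσ, hμ, ?_, hi2, fun k w t => ?_⟩
  · refine hSTL μ hμ fun k w t x => ?_
    by_contra hne'
    have hε : 0 < ‖(∫ f : MW, Complex.exp (I * (lin (fun j => w j + x) t f : ℝ)) ∂μ) -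
        ∫ f : MW, Complex.exp (I * (lin w t f : ℝ)) ∂μ‖ := norm_pos_iff.2 (sub_ne_zero.2 hne')
    set ε := ‖(∫ f : MW, Complex.exp (I * (lin (fun j => w j + x) t f : ℝ)) ∂μ) -
        ∫ f : MW, Complex.exp (I * (lin w t f : ℝ)) ∂μ‖ with hεd
    obtain ⟨i, hi⟩ : ∃ i, 1 - ε / 4 < ∫ z, φ i z ∂(PP Ω) :=
      (hφl.eventually (lt_mem_nhds (by linarith))).exists
    have h1 := hc k w t i (ε / 8) (by positivity)
    have h2 := hc k (fun j => w j + x) t i (ε / 8) (by positivity)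
    have h3 := hσ.tendsto_atTop.eventually
      (EE_inv H (hφ i) w t x (by positivity : 0 < ε / 8))
    obtain ⟨n, ⟨g1, g2⟩, g3⟩ := ((h1.and h2).and h3).exists
    have g1' : ‖(∫ z, (φ i z : ℂ) * EE lam u (σ n) w t z ∂(PP Ω)) -
        ∫ f : MW, Complex.exp (I * (lin w t f : ℝ)) ∂μ‖ ≤ 1 - (∫ z, φ i z ∂(PP Ω)) + ε / 8 := g1
    have g2' : ‖(∫ z, (φ i z : ℂ) * EE lam u (σ n) (fun j => w j + x) t z ∂(PP Ω)) -
        ∫ f : MW, Complex.exp (I * (lin (fun j => w j + x) t f : ℝ)) ∂μ‖ ≤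
        1 - (∫ z, φ i z ∂(PP Ω)) + ε / 8 := g2
    have g4 : ε ≤ ‖(∫ z, (φ i z : ℂ) * EE lam u (σ n) (fun j => w j + x) t z ∂(PP Ω)) -
        ∫ f : MW, Complex.exp (I * (lin (fun j => w j + x) t f : ℝ)) ∂μ‖ +
        ‖(∫ z, (φ i z : ℂ) * EE lam u (σ n) (fun j => w j + x) t z ∂(PP Ω)) -
          ∫ z, (φ i z : ℂ) * EE lam u (σ n) w t z ∂(PP Ω)‖ +
        ‖(∫ z, (φ i z : ℂ) * EE lam u (σ n) w t z ∂(PP Ω)) -
          ∫ f : MW, Complex.exp (I * (lin w t f : ℝ)) ∂μ‖ := by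
      set A := ∫ z, (φ i z : ℂ) * EE lam u (σ n) (fun j => w j + x) t z ∂(PP Ω)
      set B := ∫ z, (φ i z : ℂ) * EE lam u (σ n) w t z ∂(PP Ω)
      set M1 := ∫ f : MW, Complex.exp (I * (lin (fun j => w j + x) t f : ℝ)) ∂μ
      set M0 := ∫ f : MW, Complex.exp (I * (lin w t f : ℝ)) ∂μ
      have : M1 - M0 = -(A - M1) + (A - B) + (B - M0) := by ring
      rw [hεd, this]
      refine (norm_add_le _ _).trans ?_
      refine add_le_add ((norm_add_le _ _).trans ?_) le_rfl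
      rw [norm_neg]
    linarith
  · rw [Metric.tendsto_atTop']
    intro ε hε
    obtain ⟨i, hi⟩ : ∃ i, 1 - ε / 4 < ∫ z, φ i z ∂(PP Ω) :=
      (hφl.eventually (lt_mem_nhds (by linarith))).exists
    have h1 := hc k w t i (ε / 4) (by positivity)
    have h2 := hσ.tendsto_atTop.eventually (ev_resc H hχ (hφ i) w)
    obtain ⟨N, hN⟩ := eventually_atTop.1 (h1.and h2)
    refine ⟨N, fun n hn => ?_⟩
    obtain ⟨h3, h4⟩ := hN n hn.le
    have e1 : ((1 / volume.real Ω : ℝ) : ℂ) * ∫ z in Ω,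
        Complex.exp (I * ((∑ j, t j * resc χ Ω (lam (σ n)) (u (σ n)) z (w j) : ℝ) : ℂ)) =
        ∫ z, FF χ Ω (lam (σ n)) (u (σ n)) w t z ∂(PP Ω) := by
      rw [int_PP, Complex.real_smul]
      rfl
    have e2 : ∫ z, (φ i z : ℂ) * Complex.exp
          (I * (((∑ j, (t j : ℂ) * X lam u (σ n) 0 (w j) z).re : ℝ) : ℂ)) ∂(PP Ω) =
        ∫ z, (φ i z : ℂ) * FF χ Ω (lam (σ n)) (u (σ n)) w t z ∂(PP Ω) := by
      refine integral_congr_ae (Eventually.of_forall fun z => ?_)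
      dsimp only
      by_cases hz : φ i z = 0
      · rw [hz]; simp
      · unfold FF
        congr 4
        rw [Complex.re_sum]
        refine Finset.sum_congr rfl fun j _ => ?_
        rw [h4 (u (σ n)) z hz j, X_val, Complex.re_ofReal_mul, Complex.ofReal_re]
    rw [e2] at h3
    have h5 := FF_wt H hχ (hφ i) (σ n) w t
    rw [dist_eq_norm, e1]
    have h6 := norm_sub_le_norm_sub_add_norm_sub (∫ z, FF χ Ω (lam (σ n)) (u (σ n)) w t z ∂(PP Ω))
      (∫ z, (φ i z : ℂ) * FF χ Ω (lam (σ n)) (u (σ n)) w t z ∂(PP Ω))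
      (∫ f : MW, Complex.exp (I * (lin w t f : ℝ)) ∂μ)
    linarith

end

end Pool.Agent.U123.SG
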